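import Mathlib
import Pool.Agent.Lib_helper38.XA.Defs
import Pool.Agent.Lib_helper94.XO.Pr
import Pool.Agent.Lib_helper94.XO.Sel.SelN
import Pool.Agent.Lib_helper58.XA.I10
import Pool.Agent.Lib_helper58.XA.A6
import Pool.Agent.Lib_helper83.XA.A7
import Pool.Agent.Lib_helper41.XA.A8
import Pool.Agent.Lib_helper36.XA.A9
set_option autoImplicit false

/-! XA block A10: the probabilistic half of PART II (port of XO select). -/

namespace Pool.Agent.XA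

open Finset Filter Pool.Agent.XO

variable {V : Type} [AddCommGroup V] [Fintype V] [DecidableEq V]

/-! ### E8: popular sums -/

/-- the sums of at most `2 M` accessible elements -/
noncomputable def a10_Gj (p : V → ℝ) {n : ℕ} (M : ℕ) (w θ : ℝ) (j : Fin n) (z : Fin n → V) :
    Finset V := AGs (Acl p n w θ (∑ i, z i - z j)) (2 * M)

theorem a10_gj_dep (p : V → ℝ) {n : ℕ} (M : ℕ) (w θ : ℝ) (j : Fin n) (z z' : Fin n → V)
    (h : ∀ i, i ≠ j → z i = z' i) : a10_Gj p M w θ j z = a10_Gj p M w θ j z' := by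
  have h1 : ∑ i, z i - z j = ∑ i, z' i - z' j := by
    rw [← Finset.add_sum_erase univ z (Finset.mem_univ j),
      ← Finset.add_sum_erase univ z' (Finset.mem_univ j), add_sub_cancel_left,
      add_sub_cancel_left]
    exact Finset.sum_congr rfl fun i hi => h i (Finset.ne_of_mem_erase hi)
  unfold a10_Gj
  rw [h1]

/-- the size -/
noncomputable def a10_Gam (M : ℕ) (w θ : ℝ) : ℝ := (2 * (1 / (w * θ)) + 1) ^ (2 * M + 1)

theorem a10_gam_one {M : ℕ} {w θ : ℝ} (hw : 0 < w) (hθ : 0 < θ) : 1 ≤ a10_Gam M w θ := by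
  unfold a10_Gam
  apply one_le_pow₀
  have : 0 < 1 / (w * θ) := by positivity
  linarith

theorem a10_gj_card {p : V → ℝ} (hp : IsLaw p) {n : ℕ} (hn : 1 ≤ n) {M : ℕ} {w θ : ℝ} (hw : 0 < w)
    (hθ : 0 < θ) (j : Fin n) (z : Fin n → V) : ((a10_Gj p M w θ j z).card : ℝ) ≤ a10_Gam M w θ := by
  unfold a10_Gj a10_Gam
  refine (ags_card _ _).trans ?_
  have h1 := acl_card hp hn hw hθ (∑ i, z i - z j)
  have h2 : 0 < 1 / (w * θ) := by positivity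
  calc (2 * ((Acl p n w θ (∑ i, z i - z j)).card : ℝ) + 1) ^ (2 * M) ≤
        (2 * (1 / (w * θ)) + 1) ^ (2 * M) := pow_le_pow_left₀ (by positivity) (by linarith) _
    _ ≤ (2 * (1 / (w * θ)) + 1) ^ (2 * M + 1) := pow_le_pow_right₀ (by linarith) (by omega)

theorem a10_pop_all {p : V → ℝ} (hp : IsLaw p) {n : ℕ} (hn : 1 ≤ n) (M : ℕ) {w θ : ℝ} (hw : 0 < w)
    (hθ : 0 < θ) : ∃ GF : Finset (Fin n) → (Fin n → V) → Finset V,
      (∀ F z z', (∀ i, i ∉ F → z i = z' i) → GF F z = GF F z') ∧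
      (∀ F z, ((GF F z).card : ℝ) ≤ a10_Gam M w θ ^ (2 * n + 1)) ∧
      pr (fun z : Fin n → V => pw p z) (fun z => ∃ F : Finset (Fin n), F.Nonempty ∧
        ∃ g, (∀ j ∈ F, g ∈ a10_Gj p M w θ j z) ∧ g ∉ GF F z) ≤ 2 ^ n * (n / a10_Gam M w θ) := by
  have hΓ := a10_gam_one (M := M) hw hθ
  have key : ∀ F : Finset (Fin n), ∃ GF : (Fin n → V) → Finset V,
      (∀ z z', (∀ i, i ∉ F → z i = z' i) → GF z = GF z') ∧
      (∀ z, ((GF z).card : ℝ) ≤ a10_Gam M w θ ^ (2 * n + 1)) ∧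
      pr (fun z : Fin n → V => pw p z) (fun z => F.Nonempty ∧
        ∃ g, (∀ j ∈ F, g ∈ a10_Gj p M w θ j z) ∧ g ∉ GF z) ≤ n / a10_Gam M w θ := by
    intro F
    rcases F.eq_empty_or_nonempty with hF | hF
    · refine ⟨fun _ => ∅, fun _ _ _ => rfl, fun z => ?_, ?_⟩
      · simp only [Finset.card_empty, Nat.cast_zero]
        positivity
      · have : pr (fun z : Fin n → V => pw p z) (fun z => F.Nonempty ∧
            ∃ g, (∀ j ∈ F, g ∈ a10_Gj p M w θ j z) ∧ g ∉ (∅ : Finset V)) = 0 := by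
          classical
          unfold pr
          simp [hF]
        rw [this]
        positivity
    · obtain ⟨GF, h1, h2, h3⟩ := popular hp hΓ (fun j z => a10_Gj p M w θ j z)
        (fun j z z' h => a10_gj_dep p M w θ j z z' h) (fun j z => a10_gj_card hp hn hw hθ j z) F hF
      have hFn : F.card ≤ n := by
        have := Finset.card_le_univ F
        rwa [Fintype.card_fin] at this
      refine ⟨GF, h1, fun z => (h2 z).trans (pow_le_pow_right₀ hΓ (by omega)), ?_⟩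
      refine (pr_mono (pw_law hp n).nonneg (fun z _ hz => hz.2)).trans (h3.trans ?_)
      apply div_le_div_of_nonneg_right _ (by linarith)
      exact_mod_cast hFn
  choose GF h1 h2 h3 using key
  refine ⟨GF, h1, h2, ?_⟩
  refine (pr_exists_le (pw_law hp n).nonneg (fun (F : Finset (Fin n)) z => F.Nonempty ∧
    ∃ g, (∀ j ∈ F, g ∈ a10_Gj p M w θ j z) ∧ g ∉ GF F z)).trans ?_
  refine (Finset.sum_le_sum fun F _ => h3 F).trans ?_
  rw [Finset.sum_const, Finset.card_univ, Fintype.card_finset, Fintype.card_fin, nsmul_eq_mul]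
  push_cast
  exact le_rfl

/-! ### E9: light elements -/

open Classical in
theorem a10_light_ex {p : V → ℝ} {s κ κ' : ℝ} (h : APWorld p s κ κ')
    (hs : 1 ≤ s) {n : ℕ} {B : ℝ} (hB : B * (6 * Real.log s) ≤ s ^ κ)
    (GF : Finset (Fin n) → (Fin n → V) → Finset V)
    (h1 : ∀ F z z', (∀ i, i ∉ F → z i = z' i) → GF F z = GF F z')
    (h2 : ∀ F z, ((GF F z).card : ℝ) ≤ B) :
    ∃ Lt : Finset (Fin n) → (Fin n → V) → Finset V,
      (∀ H z z', (∀ i ∈ H, z i = z' i) → Lt H z = Lt H z') ∧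
      (∀ H z, ∑ c ∈ Lt H z, p c ≤ s ^ (-κ')) ∧
      ∀ H z c c', p c ≠ 0 → p c' ≠ 0 → c ≠ c' → c - c' ∈ GF Hᶜ z → c ∈ Lt H z ∨ c' ∈ Lt H z := by
  have hs0 : 0 < s := by linarith
  have hlog : 0 ≤ Real.log s := Real.log_nonneg hs
  have key : ∀ S : Finset V, ∃ L : Finset V, ∑ c ∈ L, p c ≤ s ^ (-κ') ∧
      ((S.card : ℝ) ≤ B → ∀ c c', p c ≠ 0 → p c' ≠ 0 → c ≠ c' → c - c' ∈ S →
        c ∈ L ∨ c' ∈ L) := by
    intro S
    by_cases hS : (S.card : ℝ) ≤ B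
    · set S' : Finset V := S.filter fun g => (addOrderOf g : ℝ) ≤ s ^ (6 : ℕ) with hS'
      have hcard : ((S'.card : ℕ) : ℝ) ≤ S.card := by
        exact_mod_cast Finset.card_filter_le _ _
      have hcl := card_closure_le (S := S') (one_le_pow₀ hs : (1 : ℝ) ≤ s ^ (6 : ℕ))
        (fun c hc => (Finset.mem_filter.1 hc).2)
      have hlg : Real.log (s ^ (6 : ℕ)) = 6 * Real.log s := by
        rw [Real.log_pow]
        norm_num
      obtain ⟨L, hL1, hL2⟩ := h.spread (AddSubgroup.closure (S' : Set V)) (by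
        refine hcl.trans ?_
        rw [hlg]
        refine le_trans ?_ hB
        exact mul_le_mul_of_nonneg_right (hcard.trans hS) (by positivity))
      refine ⟨L, hL2, fun _ c c' hc hc' hne hcc => hL1 c c' hc hc' hne ?_⟩
      apply AddSubgroup.subset_closure
      have ho : (addOrderOf (c - c') : ℝ) ≤ s ^ (6 : ℕ) := by
        have h3 := h.ord c hc
        have h4 := h.ord c' hc'
        have h5 : addOrderOf (c - c') ≤ addOrderOf c * addOrderOf c' := by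
          have hdvd : addOrderOf (c - c') ∣ addOrderOf c * addOrderOf c' := by
            rw [addOrderOf_dvd_iff_nsmul_eq_zero, nsmul_sub]
            rw [mul_nsmul, addOrderOf_nsmul_eq_zero, nsmul_zero, mul_nsmul', addOrderOf_nsmul_eq_zero, nsmul_zero, sub_zero]
          exact Nat.le_of_dvd (Nat.mul_pos (addOrderOf_pos c) (addOrderOf_pos c')) hdvd
        calc (addOrderOf (c - c') : ℝ) ≤ ((addOrderOf c * addOrderOf c' : ℕ) : ℝ) := by
              exact_mod_cast h5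
          _ = (addOrderOf c : ℝ) * addOrderOf c' := by push_cast; ring
          _ ≤ s ^ (3 : ℕ) * s ^ (3 : ℕ) := mul_le_mul h3 h4 (by positivity) (by positivity)
          _ = s ^ (6 : ℕ) := by ring
      simp only [hS', Finset.coe_filter, Set.mem_ofPred_eq]
      exact ⟨hcc, ho⟩
    · refine ⟨∅, ?_, fun h => absurd h hS⟩
      rw [Finset.sum_empty]
      positivity
  choose f hf1 hf2 using key
  refine ⟨fun H z => f (GF Hᶜ z), fun H z z' hz => ?_, fun H z => hf1 _, ?_⟩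
  · have : GF Hᶜ z = GF Hᶜ z' := by
      apply h1
      intro i hi
      exact hz i (by simpa using hi)
    simp only [this]
  · intro H z c c' hc hc' hne hcc
    exact hf2 _ (h2 _ _) c c' hc hc' hne hcc

/-- outside the bad events everything holds -/
theorem a10_sel_of {p : V → ℝ} (hp : IsLaw p)
    {σ : V → V → V × V} {n M₀ G Λ r : ℕ} {T Tc v w θ θ' δ : ℝ} (hMn : 4 * M₀ ≤ n)
    (hrn : r ≤ n) (hv : 0 < v) (hwc : w ≤ v * Real.exp (-Tc))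
    {GF Lt : Finset (Fin n) → (Fin n → V) → Finset V}
    (hLt : ∀ H z c c', p c ≠ 0 → p c' ≠ 0 → c ≠ c' → c - c' ∈ GF Hᶜ z →
      c ∈ Lt H z ∨ c' ∈ Lt H z)
    {z : Fin n → V} {y : Fin (4 * M₀) → V}
    (b1 : M₀ ≤ (univ.filter fun a => (KK p w θ z (y a)).card ≤ Λ).card)
    (b2 : ¬ ∃ g ≤ G, ∃ c, Reach σ y g c ∧ ¬ (Eff p v (∑ i, y i) c ∧ ∀ a b, a ≠ b → c a + c b ≠ 0))
    (b3 : ¬ ∃ j, BadJ p (4 * M₀) w v θ θ' z j)
    (b4 : Real.exp (-Tc) ≤ mum p n (∑ i, z i) y)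
    (b5 : ¬ ∃ c : Fin (4 * M₀) → V, Eff p v (∑ i, y i) c ∧
      ∃ a, KK p w θ z (c a) ≠ KK p w θ' z (c a))
    (b6 : ¬ ∃ c : Fin (4 * M₀) → V, Eff p v (∑ i, y i) c ∧ ∃ a b, a ≠ b ∧
      ∃ j, j ∉ Hub p T w θ δ z ∧ j ∈ KK p w θ z (c a) ∧ j ∈ KK p w θ z (c b))
    (b7 : ¬ r ≤ (Hub p T w θ δ z).card)
    (b8 : ¬ ∃ F : Finset (Fin n), F.Nonempty ∧
        ∃ g, (∀ j ∈ F, g ∈ a10_Gj p (4 * M₀) w θ j z) ∧ g ∉ GF F z)
    (b9 : ¬ ∃ c : Fin (4 * M₀) → V, Eff p v (∑ i, y i) c ∧ ∃ a,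
      (Hub p T w θ δ z).card ≤ r ∧ c a ∈ Lt (Hub p T w θ δ z) z) :
    ASel p σ Λ M₀ G v (KK p w θ z) (Hub p T w θ δ z) y := by
  have hdis : ∀ c : Fin (4 * M₀) → V, Eff p v (∑ i, y i) c → ∀ a b, a ≠ b →
      ∀ j, j ∉ Hub p T w θ δ z → j ∈ KK p w θ z (c a) → j ∉ KK p w θ z (c b) := by
    intro c hc a b hab j hj h1 h2
    exact b6 ⟨c, hc, a, b, hab, j, hj, h1, h2⟩
  have hpos : ∀ c : Fin (4 * M₀) → V, Eff p v (∑ i, y i) c → ∀ a, p (c a) ≠ 0 := by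
    intro c hc a h0
    have h1 := hc.2.2
    unfold pw at h1
    rw [Finset.prod_eq_zero (Finset.mem_univ a) h0] at h1
    exact lt_irrefl _ h1
  refine ⟨b1, ?_, ?_, ?_, ?_⟩
  · intro g hg c hc
    by_contra h
    exact b2 ⟨g, hg, c, hc, h⟩
  · intro c c' hc hc'
    refine conserve (M := 4 * M₀) (w := w) (v := v) (θ := θ) (θ' := θ') (fun j hj => b3 ⟨j, hj⟩)
      ?_ ?_ c c' hc hc'
    · intro c hc a
      exact hwc.trans (mu_lower hp hMn hv (Real.exp_pos _) b4 hc a)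
    · intro c hc a
      by_contra h
      exact b5 ⟨c, hc, a, h⟩
  · intro c hc a b hab
    rw [Finset.disjoint_left]
    intro j hj hj'
    rw [Finset.mem_sdiff] at hj hj'
    exact hdis c hc a b hab j hj.2 hj.1 hj'.1
  · intro c c' hc hc' a a' hK
    by_contra hne
    have hM1 : 1 ≤ 4 * M₀ := by
      have := a.pos
      omega
    have h1 : ∀ j, j ∉ Hub p T w θ δ z → c a - c' a' ∈ a10_Gj p (4 * M₀) w θ j z := by
      intro j hj
      exact aunique_gs hM1 (hc.1.trans hc'.1.symm) (Hub p T w θ δ z) (hdis c hc) (hdis c' hc')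
        hK j hj
    have hF : ((Hub p T w θ δ z)ᶜ).Nonempty := by
      rw [← Finset.card_pos, Finset.card_compl, Fintype.card_fin]
      omega
    have h2 : c a - c' a' ∈ GF (Hub p T w θ δ z)ᶜ z := by
      by_contra h
      exact b8 ⟨_, hF, _, fun j hj => h1 j (by simpa using hj), h⟩
    have h3 : (Hub p T w θ δ z).card ≤ r := by omega
    rcases hLt _ z _ _ (hpos c hc a) (hpos c' hc' a') hne h2 with h4 | h4
    · exact b9 ⟨c, hc, a, h3, h4⟩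
    · exact b9 ⟨c', hc', a', h3, h4⟩

/-- the core, all parameters fixed -/
theorem a10_sel_core {p : V → ℝ} {s κ κ' : ℝ} (h : APWorld p s κ κ')
    (hs1 : 1 ≤ s) (hκ' : 0 < κ') {σ : V → V → V × V} {n M₀ G Λ r I : ℕ}
    {Ta Tb Tc Qa Qb v w δ' δ1 δ4 : ℝ} (θ : ℕ → ℝ) (hn : 2 ≤ n) (hMn : 4 * M₀ ≤ n)
    (hr : 1 ≤ r) (hrn : r ≤ n) (hv : 0 < v)
    (hch : pr (fun c : Fin (4 * M₀) → V => pw p c) (fun y => ∃ g ≤ G, ∃ c, Reach σ y g c ∧
        ¬ (Eff p v (∑ i, y i) c ∧ ∀ a b, a ≠ b → c a + c b ≠ 0)) ≤ 1 / 30)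
    (htA : pr (LB p n 1) (fun x => mu p n (∑ i, x.1 i) (x.2 0) < Real.exp (-Ta)) ≤ 1 / 8)
    (htB : pr (LB p n 1) (fun x => mu p n (∑ i, x.1 i) (x.2 0) < Real.exp (-Tb)) ≤ δ')
    (htC : pr (LB p n (4 * M₀)) (fun x => mum p n (∑ i, x.1 i) x.2 < Real.exp (-Tc)) ≤ 1 / 30)
    (hw0 : 0 < w) (hwa : w ≤ Real.exp (-Ta)) (hwb : w ≤ Real.exp (-Tb))
    (hwc : w ≤ v * Real.exp (-Tc)) (hθ : ∀ i, 0 < θ i) (hanti : Antitone θ)
    (hQa : n * (12 * Del p Ta n + 2 * Real.exp Ta * θ 0) ≤ Qa) (hΛ0 : 0 < Λ) (hΛ : 8 * Qa ≤ Λ)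
    (hQb : n * (12 * Del p Tb n + 2 * Real.exp Tb * θ 0) ≤ Qb) (hI : 1 ≤ I)
    (hδ1 : 0 < δ1) (hδ4 : 0 < δ4)
    (b3 : ∀ i < I, n * ((1 / (w * θ i)) ^ (4 * M₀) * (((4 * M₀ : ℕ) : ℝ) / v) * θ (i + 1)) ≤ 1 / 30)
    (b5 : (1 / v) * (((4 * M₀ : ℕ) : ℝ) * (Qb / I + δ')) ≤ 1 / 30)
    (b6 : (1 / v) * ((((4 * M₀ : ℕ) : ℝ)) ^ 2 * (2 * δ' + δ1 * Qb + 2 * √(Del p Tb n))) ≤ 1 / 30)
    (b7 : Qb / (δ1 * r) ≤ 1 / 30)
    (b8 : ∀ i < I, 2 ^ n * (n / a10_Gam (4 * M₀) w (θ i)) ≤ 1 / 30)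
    (b9 : (1 / v) * (((4 * M₀ : ℕ) : ℝ) *
      (δ4 + 2 ^ n * s ^ r * 2 ^ n * (s ^ (-κ')) ^ (δ4 * n))) ≤ 1 / 30)
    (hdim : ∀ i < I, a10_Gam (4 * M₀) w (θ i) ^ (2 * n + 1) * (6 * Real.log s) ≤ s ^ κ) :
    ∃ (K : V → Finset (Fin n)) (Hb : Finset (Fin n)) (y : Fin (4 * M₀) → V),
      ASel p σ Λ M₀ G v K Hb y := by
  have hp := h.law
  have hn1 : 1 ≤ n := by omega
  have hl := lb_law hp hMn
  obtain ⟨i, hiI, hst⟩ := stable hp hn hw0 hwb θ hθ hanti hQb hI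
  have hθ0 : θ i ≤ θ 0 := hanti (Nat.zero_le i)
  have hn0 : (0 : ℝ) ≤ n := Nat.cast_nonneg _
  have hQa' : n * (12 * Del p Ta n + 2 * Real.exp Ta * θ i) ≤ Qa := by
    refine le_trans (mul_le_mul_of_nonneg_left ?_ hn0) hQa
    have := mul_le_mul_of_nonneg_left hθ0 (show 0 ≤ 2 * Real.exp Ta by positivity)
    linarith
  have hQb' : n * (12 * Del p Tb n + 2 * Real.exp Tb * θ i) ≤ Qb := by
    refine le_trans (mul_le_mul_of_nonneg_left ?_ hn0) hQb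
    have := mul_le_mul_of_nonneg_left hθ0 (show 0 ≤ 2 * Real.exp Tb by positivity)
    linarith
  obtain ⟨GF, hG1, hG2, hG3⟩ := a10_pop_all hp hn1 (4 * M₀) hw0 (hθ i)
  obtain ⟨Lt, hL1, hL2, hL3⟩ := a10_light_ex h hs1 (hdim i hiI) GF hG1 hG2
  have hδ' : 0 ≤ δ' := (pr_nonneg (lb_law hp hn1).nonneg _).trans htB
  have hdel := del_nonneg hp Tb n
  have hQb0 : 0 ≤ Qb := by
    refine le_trans ?_ hQb'
    have := hθ i
    positivity
  -- the bad events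
  have e1 : pr (LB p n (4 * M₀)) (fun x => ¬ M₀ ≤ (univ.filter fun a =>
      (KK p w (θ i) x.1 (x.2 a)).card ≤ Λ).card) ≤ 1 / 3 := by
    refine count_pr hl (fun a x => (KK p w (θ i) x.1 (x.2 a)).card ≤ Λ) fun a => ?_
    rw [lb_coord hp hMn a (fun z c => ¬ (KK p w (θ i) z c).card ≤ Λ)]
    exact ok_pr hp hn (hθ i) hw0 hwa hQa' hΛ0 hΛ htA
  have e2 : pr (LB p n (4 * M₀)) (fun x => ∃ g ≤ G, ∃ c, Reach σ x.2 g c ∧
        ¬ (Eff p v (∑ i, x.2 i) c ∧ ∀ a b, a ≠ b → c a + c b ≠ 0)) ≤ 1 / 30 := by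
    rw [lb_snd hp hMn (fun y => ∃ g ≤ G, ∃ c, Reach σ y g c ∧
        ¬ (Eff p v (∑ i, y i) c ∧ ∀ a b, a ≠ b → c a + c b ≠ 0))]
    exact hch
  have e3 : pr (LB p n (4 * M₀)) (fun x => ∃ j, BadJ p (4 * M₀) w v (θ i) (θ (i + 1)) x.1 j) ≤
      1 / 30 := by
    rw [lb_fst_pr hp hMn (fun z => ∃ j, BadJ p (4 * M₀) w v (θ i) (θ (i + 1)) z j)]
    refine (pr_exists_le (pw_law hp n).nonneg
      (fun j z => BadJ p (4 * M₀) w v (θ i) (θ (i + 1)) z j)).trans ?_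
    refine le_trans (Finset.sum_le_sum fun j _ =>
      badj_pr hp hn1 hw0 hv (hθ i) (hθ (i + 1)) j) ?_
    rw [Finset.sum_const, Finset.card_univ, Fintype.card_fin, nsmul_eq_mul]
    exact b3 i hiI
  have e5 : pr (LB p n (4 * M₀)) (fun x => ∃ c : Fin (4 * M₀) → V, Eff p v (∑ i, x.2 i) c ∧
      ∃ a, KK p w (θ i) x.1 (c a) ≠ KK p w (θ (i + 1)) x.1 (c a)) ≤ 1 / 30 := by
    refine (eff_entry hp hMn hv (fun z c => KK p w (θ i) z c ≠ KK p w (θ (i + 1)) z c)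
      (stab_one hp hn1 hst htB)).trans b5
  have e6 : pr (LB p n (4 * M₀)) (fun x => ∃ c : Fin (4 * M₀) → V, Eff p v (∑ i, x.2 i) c ∧
      ∃ a b, a ≠ b ∧ ∃ j, j ∉ Hub p Tb w (θ i) δ1 x.1 ∧ j ∈ KK p w (θ i) x.1 (c a) ∧
        j ∈ KK p w (θ i) x.1 (c b)) ≤ 1 / 30 := by
    refine (eff_pair hp hMn hv ?_ (fun z c d => ∃ j, j ∉ Hub p Tb w (θ i) δ1 z ∧
      j ∈ KK p w (θ i) z c ∧ j ∈ KK p w (θ i) z d)
      (disj_two hp hn (hθ i) hw0 hwb hδ1 hQb' htB)).trans b6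
    positivity
  have e7 : pr (LB p n (4 * M₀)) (fun x => r ≤ (Hub p Tb w (θ i) δ1 x.1).card) ≤ 1 / 30 := by
    rw [lb_fst_pr hp hMn (fun z => r ≤ (Hub p Tb w (θ i) δ1 z).card)]
    exact (hub_pr hp hn (hθ i) hw0 hwb hδ1 hQb' hr).trans b7
  have e8 : pr (LB p n (4 * M₀)) (fun x => ∃ F : Finset (Fin n), F.Nonempty ∧
        ∃ g, (∀ j ∈ F, g ∈ a10_Gj p (4 * M₀) w (θ i) j x.1) ∧ g ∉ GF F x.1) ≤ 1 / 30 := by
    rw [lb_fst_pr hp hMn (fun z => ∃ F : Finset (Fin n), F.Nonempty ∧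
        ∃ g, (∀ j ∈ F, g ∈ a10_Gj p (4 * M₀) w (θ i) j z) ∧ g ∉ GF F z)]
    exact hG3.trans (b8 i hiI)
  have e9 : pr (LB p n (4 * M₀)) (fun x => ∃ c : Fin (4 * M₀) → V, Eff p v (∑ i, x.2 i) c ∧
      ∃ a, (Hub p Tb w (θ i) δ1 x.1).card ≤ r ∧ c a ∈ Lt (Hub p Tb w (θ i) δ1 x.1) x.1) ≤
      1 / 30 := by
    refine (eff_entry hp hMn hv (fun z c => (Hub p Tb w (θ i) δ1 z).card ≤ r ∧
      c ∈ Lt (Hub p Tb w (θ i) δ1 z) z) ?_).trans b9
    exact light_pr hp h.card hs1 (by positivity)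
      (Real.rpow_le_one_of_one_le_of_nonpos hs1 (by linarith)) hn1
      (fun z => Hub p Tb w (θ i) δ1 z) Lt hL1 hL2 hδ4
  -- union
  obtain ⟨x, -, hx⟩ := exists_of_pr_lt_one hl
    (A := fun x => (¬ M₀ ≤ (univ.filter fun a => (KK p w (θ i) x.1 (x.2 a)).card ≤ Λ).card) ∨
      (∃ g ≤ G, ∃ c, Reach σ x.2 g c ∧
        ¬ (Eff p v (∑ i, x.2 i) c ∧ ∀ a b, a ≠ b → c a + c b ≠ 0)) ∨
      (∃ j, BadJ p (4 * M₀) w v (θ i) (θ (i + 1)) x.1 j) ∨
      (mum p n (∑ i, x.1 i) x.2 < Real.exp (-Tc)) ∨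
      (∃ c : Fin (4 * M₀) → V, Eff p v (∑ i, x.2 i) c ∧
        ∃ a, KK p w (θ i) x.1 (c a) ≠ KK p w (θ (i + 1)) x.1 (c a)) ∨
      (∃ c : Fin (4 * M₀) → V, Eff p v (∑ i, x.2 i) c ∧
        ∃ a b, a ≠ b ∧ ∃ j, j ∉ Hub p Tb w (θ i) δ1 x.1 ∧ j ∈ KK p w (θ i) x.1 (c a) ∧
        j ∈ KK p w (θ i) x.1 (c b)) ∨
      (r ≤ (Hub p Tb w (θ i) δ1 x.1).card) ∨
      (∃ F : Finset (Fin n), F.Nonempty ∧
        ∃ g, (∀ j ∈ F, g ∈ a10_Gj p (4 * M₀) w (θ i) j x.1) ∧ g ∉ GF F x.1) ∨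
      (∃ c : Fin (4 * M₀) → V, Eff p v (∑ i, x.2 i) c ∧
        ∃ a, (Hub p Tb w (θ i) δ1 x.1).card ≤ r ∧ c a ∈ Lt (Hub p Tb w (θ i) δ1 x.1) x.1)) (by
    have q := fun A B => pr_or_le (P := LB p n (4 * M₀)) hl.nonneg A B
    refine lt_of_le_of_lt ((q _ _).trans (add_le_add e1 ((q _ _).trans (add_le_add e2
      ((q _ _).trans (add_le_add e3 ((q _ _).trans (add_le_add htC ((q _ _).trans (add_le_add e5
      ((q _ _).trans (add_le_add e6 ((q _ _).trans (add_le_add e7 ((q _ _).trans (add_le_add e8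
        e9)))))))))))))))) ?_
    norm_num)
  simp only [not_or] at hx
  obtain ⟨x1, x2, x3, x4, x5, x6, x7, x8, x9⟩ := hx
  exact ⟨_, _, x.2, a10_sel_of hp hMn hrn hv hwc hL3 (not_not.1 x1) x2 x3 (not_lt.1 x4) x5 x6 x7
    x8 x9⟩

theorem a10_num8 {n N2 M : ℕ} {w θ θ0 : ℝ} (hn : n ≤ N2) (hw : 0 < w)
    (hθ : 0 < θ) (hθ0 : θ ≤ θ0) (hK : (2 : ℝ) ^ N2 * (N2 * w) * θ0 ≤ 1 / 30) :
    2 ^ n * (n / a10_Gam M w θ) ≤ 1 / 30 := by
  refine le_trans ?_ hK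
  have h0 : 0 < 1 / (w * θ) := by positivity
  have h1 : 1 / (w * θ) ≤ a10_Gam M w θ := by
    unfold a10_Gam
    calc 1 / (w * θ) ≤ (2 * (1 / (w * θ)) + 1) ^ 1 := by rw [pow_one]; linarith
      _ ≤ (2 * (1 / (w * θ)) + 1) ^ (2 * M + 1) := pow_le_pow_right₀ (by linarith) (by omega)
  have h2 : (n : ℝ) / a10_Gam M w θ ≤ N2 * w * θ0 := by
    have h3 : (n : ℝ) ≤ N2 := by exact_mod_cast hn
    calc (n : ℝ) / a10_Gam M w θ ≤ N2 / (1 / (w * θ)) :=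
          div_le_div₀ (by positivity) h3 h0 h1
      _ = N2 * w * θ := by field_simp
      _ ≤ N2 * w * θ0 := mul_le_mul_of_nonneg_left hθ0 (by positivity)
  have h4 : (2 : ℝ) ^ n ≤ 2 ^ N2 := pow_le_pow_right₀ (by norm_num) hn
  have h5 : 0 ≤ (N2 : ℝ) * w * θ0 := le_trans (by
    have : 0 < a10_Gam M w θ := lt_of_lt_of_le h0 h1
    positivity) h2
  calc (2 : ℝ) ^ n * (n / a10_Gam M w θ) ≤ 2 ^ N2 * (N2 * w * θ0) :=
        mul_le_mul h4 h2 (by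
          have : 0 < a10_Gam M w θ := lt_of_lt_of_le h0 h1
          positivity) (by positivity)
    _ = _ := by ring

theorem a10_numdim {n N2 M E : ℕ} {w θ θI s κ : ℝ} (hn : n ≤ N2) (hw : 0 < w) (hw1 : w ≤ 1)
    (hθ : 0 < θ) (hθ1 : θ ≤ 1) (hθI : θI ≤ θ) (hs : 0 < s) (hI : 0 < θI)
    (hE : E = (2 * M + 1) * (2 * N2 + 1)) (hθE : (1 / θI) ^ E ≤ s ^ (κ / 2))
    (hs1 : 1 ≤ s) (hK : (3 / w) ^ E * (6 * Real.log s) ≤ s ^ (κ / 2)) :
    a10_Gam M w θ ^ (2 * n + 1) * (6 * Real.log s) ≤ s ^ κ := by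
  have hlog : 0 ≤ Real.log s := Real.log_nonneg hs1
  have h0 : 0 < w * θ := by positivity
  have h1 : 1 ≤ 1 / (w * θ) := by
    rw [le_div_iff₀ h0]
    nlinarith
  have h2 : 2 * (1 / (w * θ)) + 1 ≤ (3 / w) * (1 / θI) := by
    have h3 : 1 / (w * θ) ≤ (1 / w) * (1 / θI) := by
      rw [one_div_mul_one_div]
      apply one_div_le_one_div_of_le (by positivity)
      exact mul_le_mul_of_nonneg_left hθI hw.le
    have h4 : (3 / w) * (1 / θI) = 3 * ((1 / w) * (1 / θI)) := by ring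
    rw [h4]
    linarith
  have h5 : 1 ≤ (3 / w) * (1 / θI) := by linarith
  unfold a10_Gam
  rw [← pow_mul]
  have h6 : (2 * (1 / (w * θ)) + 1) ^ ((2 * M + 1) * (2 * n + 1)) ≤
      (3 / w) ^ E * (1 / θI) ^ E := by
    calc (2 * (1 / (w * θ)) + 1) ^ ((2 * M + 1) * (2 * n + 1)) ≤
        ((3 / w) * (1 / θI)) ^ ((2 * M + 1) * (2 * n + 1)) :=
        pow_le_pow_left₀ (by linarith) h2 _
    _ ≤ ((3 / w) * (1 / θI)) ^ E := by
        apply pow_le_pow_right₀ h5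
        rw [hE]
        exact Nat.mul_le_mul_left _ (by omega)
    _ = (3 / w) ^ E * (1 / θI) ^ E := mul_pow _ _ _
  calc (2 * (1 / (w * θ)) + 1) ^ ((2 * M + 1) * (2 * n + 1)) * (6 * Real.log s) ≤
        ((3 / w) ^ E * (1 / θI) ^ E) * (6 * Real.log s) :=
        mul_le_mul_of_nonneg_right h6 (by positivity)
    _ = ((3 / w) ^ E * (6 * Real.log s)) * (1 / θI) ^ E := by ring
    _ ≤ s ^ (κ / 2) * s ^ (κ / 2) := mul_le_mul hK hθE (by positivity) (by positivity)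
    _ = s ^ κ := by
        rw [← Real.rpow_add hs]
        congr 1
        ring

theorem a10_evlog (K : ℝ) {a : ℝ} (ha : 0 < a) :
    ∀ᶠ s : ℝ in atTop, K * (6 * Real.log s) ≤ s ^ a := by
  have h := (isLittleO_log_rpow_atTop ha).bound
    (show (0 : ℝ) < 1 / (6 * (|K| + 1)) by positivity)
  filter_upwards [h, eventually_ge_atTop (1 : ℝ)] with s hs hs1
  have hlog : 0 ≤ Real.log s := Real.log_nonneg hs1
  rw [Real.norm_of_nonneg hlog, Real.norm_of_nonneg (by positivity), one_div,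
    inv_mul_eq_div, le_div_iff₀ (by positivity)] at hs
  have hK : K ≤ |K| + 1 := by
    have := le_abs_self K
    linarith
  nlinarith [mul_le_mul_of_nonneg_right hK hlog]

/-- the probabilistic half of PART II -/
theorem aselect (κ κ' κ2 : ℝ) (hκ : 0 < κ) (hκ' : 0 < κ') (hκ2 : 0 < κ2) :
    ∃ Λ : ℕ, ∀ M₀ G : ℕ, ∀ᶠ s : ℝ in atTop, ∀ (V : Type) [AddCommGroup V]
      [Fintype V] [DecidableEq V] (p : V → ℝ) (e : V → ℂ), AWorld p e s κ κ' κ2 →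
      ∀ σ, AGate p e σ →
      ∃ (n : ℕ) (v : ℝ) (K : V → Finset (Fin n)) (Hb : Finset (Fin n)) (y : Fin (4 * M₀) → V),
        ASel p σ Λ M₀ G v K Hb y := by
  obtain ⟨Ca, hCa0, hCa⟩ := XA.tight_in κ κ' (1 / 8) hκ hκ' (by norm_num) 1
  obtain ⟨Λ, hΛ⟩ := exists_nat_ge (8 * (192 * Ca + 1))
  refine ⟨Λ, fun M₀ G => ?_⟩
  have hΛ0 : 0 < Λ := by
    have : (0 : ℝ) < Λ := lt_of_lt_of_le (by positivity) hΛ
    exact_mod_cast this
  obtain ⟨M, hM⟩ : ∃ M : ℕ, M = 4 * M₀ := ⟨_, rfl⟩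
  obtain ⟨v, hv0, hv1, hch⟩ := achain κ κ' κ2 (1 / 30) hκ hκ' hκ2 (by norm_num) M G
  obtain ⟨B, hB⟩ : ∃ B : ℝ, B = ((M : ℝ) + 1) ^ 2 / v := ⟨_, rfl⟩
  have hB0 : 0 < B := by rw [hB]; positivity
  obtain ⟨δ', hδ'⟩ : ∃ δ' : ℝ, δ' = 1 / (300 * B) := ⟨_, rfl⟩
  have hδ'0 : 0 < δ' := by rw [hδ']; positivity
  obtain ⟨Cb, hCb0, hCb⟩ := XA.tight_in κ κ' δ' hκ hκ' hδ'0 1
  obtain ⟨Cc, hCc0, hCc⟩ := XA.tight_in κ κ' (1 / 30) hκ hκ' (by norm_num) M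
  obtain ⟨Qb, hQb⟩ : ∃ Qb : ℝ, Qb = 192 * Cb + 1 := ⟨_, rfl⟩
  have hQb0 : 0 < Qb := by rw [hQb]; positivity
  obtain ⟨I, hI⟩ := exists_nat_ge (300 * B * Qb + 1)
  have hI1 : 1 ≤ I := by
    have : (1 : ℝ) ≤ I := le_trans (by linarith [mul_pos (mul_pos (show (0:ℝ) < 300 by norm_num) hB0) hQb0]) hI
    exact_mod_cast this
  obtain ⟨δ1, hδ1⟩ : ∃ δ1 : ℝ, δ1 = 1 / (300 * B * Qb) := ⟨_, rfl⟩
  have hδ1p : 0 < δ1 := by rw [hδ1]; positivity
  obtain ⟨r, hr⟩ := exists_nat_ge (30 * Qb / δ1 + 1)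
  have hr1 : 1 ≤ r := by
    have : (1 : ℝ) ≤ r := le_trans (by linarith [div_pos (mul_pos (show (0:ℝ) < 30 by norm_num) hQb0) hδ1p]) hr
    exact_mod_cast this
  obtain ⟨N, hN⟩ := exists_nat_ge (8 + (M : ℝ) + r + ((r : ℝ) + 1) / (κ' * δ') +
    16 * Cb * (600 * B) ^ 2)
  have hx1 : 0 ≤ ((r : ℝ) + 1) / (κ' * δ') := by positivity
  have hx2 : 0 ≤ 16 * Cb * (600 * B) ^ 2 := by positivity
  have hN8 : 8 ≤ N := by
    have : (8 : ℝ) ≤ N := by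
      have := Nat.cast_nonneg (α := ℝ) M
      have := Nat.cast_nonneg (α := ℝ) r
      linarith
    exact_mod_cast this
  have hNM : M ≤ N := by
    have : (M : ℝ) ≤ N := by
      have := Nat.cast_nonneg (α := ℝ) r
      linarith
    exact_mod_cast this
  have hNr : r ≤ N := by
    have : (r : ℝ) ≤ N := by
      have := Nat.cast_nonneg (α := ℝ) M
      linarith
    exact_mod_cast this
  have hNr2 : (r : ℝ) + 1 ≤ κ' * δ' * N := by
    have h1 : ((r : ℝ) + 1) / (κ' * δ') ≤ N := by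
      have := Nat.cast_nonneg (α := ℝ) M
      have := Nat.cast_nonneg (α := ℝ) r
      linarith
    rw [div_le_iff₀ (by positivity)] at h1
    linarith
  have hND : 16 * Cb * (600 * B) ^ 2 ≤ N := by
    have := Nat.cast_nonneg (α := ℝ) M
    have := Nat.cast_nonneg (α := ℝ) r
    linarith
  -- scales
  obtain ⟨Ta, hTa⟩ : ∃ Ta : ℝ, Ta = Ca * (1 + Real.log ((N : ℝ) ^ 2)) := ⟨_, rfl⟩
  obtain ⟨Tb, hTb⟩ : ∃ Tb : ℝ, Tb = Cb * (1 + Real.log ((N : ℝ) ^ 2)) := ⟨_, rfl⟩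
  obtain ⟨Tc, hTc⟩ : ∃ Tc : ℝ, Tc = Cc * (1 + Real.log ((N : ℝ) ^ 2)) := ⟨_, rfl⟩
  have hN1 : (1 : ℝ) ≤ N := by exact_mod_cast (by omega : 1 ≤ N)
  have hlog : 0 ≤ Real.log ((N : ℝ) ^ 2) := Real.log_nonneg (by nlinarith)
  have hTa0 : 0 ≤ Ta := by rw [hTa]; positivity
  have hTb0 : 0 ≤ Tb := by rw [hTb]; positivity
  have hTc0 : 0 ≤ Tc := by rw [hTc]; positivity
  obtain ⟨w, hw⟩ : ∃ w : ℝ, w = v * Real.exp (-(Ta + Tb + Tc)) := ⟨_, rfl⟩
  have hw0 : 0 < w := by rw [hw]; positivity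
  have hwx : ∀ T, T ≤ Ta + Tb + Tc → w ≤ v * Real.exp (-T) := by
    intro T hT
    rw [hw]
    apply mul_le_mul_of_nonneg_left _ hv0.le
    apply Real.exp_le_exp.2
    linarith
  have hwy : ∀ T, T ≤ Ta + Tb + Tc → w ≤ Real.exp (-T) := by
    intro T hT
    refine (hwx T hT).trans ?_
    have := Real.exp_pos (-T)
    nlinarith
  have hw1 : w ≤ 1 := by
    have := hwy 0 (by linarith)
    simpa using this
  obtain ⟨N2, hN2⟩ : ∃ N2 : ℕ, N2 = N ^ 2 := ⟨_, rfl⟩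
  obtain ⟨E, hE⟩ : ∃ E : ℕ, E = (2 * M + 1) * (2 * N2 + 1) := ⟨_, rfl⟩
  have hE0 : (0 : ℝ) < E := by
    have : 0 < E := by rw [hE]; positivity
    exact_mod_cast this
  obtain ⟨kp, hkp⟩ : ∃ kp : ℝ, kp = κ / (2 * ((M : ℝ) + 2) ^ I * E) := ⟨_, rfl⟩
  have hkp0 : 0 < kp := by rw [hkp]; positivity
  -- the eventual facts
  have tev : ∀ (m : ℕ) (δ C : ℝ), (∀ n : ℕ, 1 ≤ n → ∀ hmn : m ≤ n, ∀ᶠ s : ℝ in atTop,
      ∀ (V : Type) [AddCommGroup V] [Fintype V] [DecidableEq V] (p : V → ℝ),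
      APWorld p s κ κ' →
      pr (fun c : Fin n → V => pw p c) (fun c => mum p n (∑ i, c i)
        (fun i : Fin m => c (Fin.castLE hmn i)) < Real.exp (-(C * (1 + Real.log n)))) ≤ δ) →
      ∀ᶠ s : ℝ in atTop, ∀ n ∈ Finset.Icc N (N ^ 2), 1 ≤ n → ∀ hmn : m ≤ n,
      ∀ (V : Type) [AddCommGroup V] [Fintype V] [DecidableEq V] (p : V → ℝ),
      APWorld p s κ κ' →
      pr (fun c : Fin n → V => pw p c) (fun c => mum p n (∑ i, c i)
        (fun i : Fin m => c (Fin.castLE hmn i)) < Real.exp (-(C * (1 + Real.log n)))) ≤ δ := by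
    intro m δ C h
    rw [Filter.eventually_all_finset]
    intro n _
    by_cases hn : 1 ≤ n
    · by_cases hmn : m ≤ n
      · filter_upwards [h n hn hmn] with s hs _ _
        exact hs
      · exact Filter.Eventually.of_forall fun s _ h' => absurd h' hmn
    · exact Filter.Eventually.of_forall fun s h' => absurd h' hn
  filter_upwards [hch, tev 1 _ _ hCa, tev 1 _ _ hCb, tev M _ _ hCc, eventually_ge_atTop (1 : ℝ),
    ev_small (K := (N2 : ℝ) * (2 * Real.exp Ta)) hkp0 one_pos,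
    ev_small (K := (N2 : ℝ) * (2 * Real.exp Tb)) hkp0 one_pos,
    ev_small (K := (N2 : ℝ) * ((1 / w) ^ M * ((M : ℝ) / v))) hkp0
      (show (0 : ℝ) < 1 / 30 by norm_num),
    ev_small (K := (2 : ℝ) ^ N2 * (N2 * w)) hkp0 (show (0 : ℝ) < 1 / 30 by norm_num),
    ev_small (K := (4 : ℝ) ^ N2) one_pos (show (0 : ℝ) < 1 / (300 * B) by positivity),
    a10_evlog ((3 / w) ^ E) (show 0 < κ / 2 by positivity)]
    with s g1 g2 g3 g4 g5 g6 g7 g8 g9 g10 g11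
  intro V _ _ _ p e hW σ hσ
  have hPW := hW.toAPWorld
  have hp := hPW.law
  have hs0 : 0 < s := by linarith
  obtain ⟨n, hn1, hn2, hDa, hDb⟩ := good_scale hp hCa0 hCb0 hN8
  rw [← hTa] at hDa
  rw [← hTb] at hDb
  have hnI : n ∈ Finset.Icc N (N ^ 2) := Finset.mem_Icc.2 ⟨hn1, hn2⟩
  have hn0 : 1 ≤ n := by omega
  have hn0' : (0 : ℝ) < n := by exact_mod_cast hn0
  have hnN2 : n ≤ N2 := by omega
  have hnlog : Real.log n ≤ Real.log ((N : ℝ) ^ 2) := by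
    apply Real.log_le_log hn0'
    exact_mod_cast hn2
  have hNn : (N : ℝ) ≤ n := by exact_mod_cast hn1
  -- the thresholds
  obtain ⟨θ, hθ⟩ : ∃ θ : ℕ → ℝ, ∀ i, θ i = s ^ (-(kp * ((M : ℝ) + 2) ^ i)) :=
    ⟨fun i => s ^ (-(kp * ((M : ℝ) + 2) ^ i)), fun i => rfl⟩
  have hM2 : (1 : ℝ) ≤ (M : ℝ) + 2 := by
    have := Nat.cast_nonneg (α := ℝ) M
    linarith
  have hθ0 : ∀ i, 0 < θ i := fun i => by rw [hθ]; positivity
  have hθa : Antitone θ := by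
    intro i j hij
    rw [hθ, hθ]
    apply Real.rpow_le_rpow_of_exponent_le g5
    apply neg_le_neg
    exact mul_le_mul_of_nonneg_left (pow_le_pow_right₀ hM2 hij) hkp0.le
  have hθz : θ 0 = s ^ (-kp) := by rw [hθ, pow_zero, mul_one]
  have hθ1 : ∀ i, θ i ≤ 1 := by
    intro i
    rw [hθ]
    apply Real.rpow_le_one_of_one_le_of_nonpos g5
    have : 0 < kp * ((M : ℝ) + 2) ^ i := by positivity
    linarith
  have hθs : ∀ i, θ (i + 1) = θ i ^ (M + 2) := by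
    intro i
    rw [hθ, hθ, ← Real.rpow_natCast (s ^ _), ← Real.rpow_mul hs0.le]
    congr 1
    push_cast
    ring
  have hθE : (1 / θ I) ^ E ≤ s ^ (κ / 2) := by
    rw [hθ, one_div, ← Real.rpow_neg hs0.le, neg_neg, ← Real.rpow_natCast,
      ← Real.rpow_mul hs0.le]
    apply le_of_eq
    congr 1
    rw [hkp]
    have h1 : ((M : ℝ) + 2) ^ I ≠ 0 := by positivity
    field_simp
  rw [← hθz] at g6 g7 g8 g9
  have hMn : 4 * M₀ ≤ n := by omega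
  obtain ⟨K, Hb, y, h⟩ := a10_sel_core (σ := σ) (n := n) (M₀ := M₀) (G := G) (Λ := Λ) (r := r)
    (I := I) (Ta := Ta) (Tb := Tb) (Tc := Tc) (Qa := 192 * Ca + 1) (Qb := Qb) (v := v) (w := w)
    (δ' := δ') (δ1 := δ1) (δ4 := δ') hPW g5 hκ' θ (by omega) hMn hr1 (by omega) hv0
    (by
      have := g1 V p e hW σ hσ
      rw [hM] at this
      exact this)
    (tight_lb_one hp hn0 (by rw [hTa]; exact mul_le_mul_of_nonneg_left (by linarith) hCa0.le)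
      (g2 n hnI hn0 hn0 V p hPW))
    (tight_lb_one hp hn0 (by rw [hTb]; exact mul_le_mul_of_nonneg_left (by linarith) hCb0.le)
      (g3 n hnI hn0 hn0 V p hPW))
    (by
      have h1 := tight_lb hp (show M ≤ n by omega) (T := Tc)
        (by rw [hTc]; exact mul_le_mul_of_nonneg_left (by linarith) hCc0.le)
        (g4 n hnI hn0 (by omega) V p hPW)
      subst hM
      exact h1)
    hw0 (hwy Ta (by linarith)) (hwy Tb (by linarith)) (hwx Tc (by linarith)) hθ0 hθa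
    (numq hn0 hnN2 (hθ0 0).le hDa g6) hΛ0 hΛ
    (by rw [hQb]; exact numq hn0 hnN2 (hθ0 0).le hDb g7) hI1 hδ1p hδ'0
    (by
      intro i _
      subst hM
      exact num3 hnN2 hw0 hv0 (hθ0 i) (hθ1 i) (hθa (Nat.zero_le i)) (hθs i) g8)
    (by
      subst hM
      exact num5 hv0 hB hδ' hQb0 hI1 (by linarith))
    (by
      subst hM
      refine num6 hv0 hB hδ' hQb0 hδ1 ?_
      have h1 : Del p Tb n ≤ (1 / (600 * B)) ^ 2 := by
        refine hDb.trans ?_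
        rw [div_le_iff₀ hn0', div_pow, one_pow, div_mul_eq_mul_div, one_mul,
          le_div_iff₀ (by positivity)]
        linarith
      have h2 : √(Del p Tb n) ≤ 1 / (600 * B) := by
        rw [← Real.sqrt_sq (show 0 ≤ 1 / (600 * B) by positivity)]
        exact Real.sqrt_le_sqrt h1
      have h3 : 2 * (1 / (600 * B)) = 1 / (300 * B) := by
        field_simp
        norm_num
      linarith)
    (by
      have hr0 : (0 : ℝ) < r := by exact_mod_cast hr1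
      rw [div_le_iff₀ (by positivity)]
      have h1 : 30 * Qb / δ1 ≤ r := by linarith
      rw [div_le_iff₀ hδ1p] at h1
      linarith)
    (by
      intro i _
      subst hM
      exact a10_num8 hnN2 hw0 (hθ0 i) (hθa (Nat.zero_le i)) g9)
    (by
      subst hM
      refine num9 hv0 hB hnN2 g5 hδ' ?_ ?_
      · refine hNr2.trans ?_
        exact mul_le_mul_of_nonneg_left hNn (by positivity)
      · rw [← Real.rpow_neg_one]
        exact g10)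
    (by
      intro i hi
      subst hM
      exact a10_numdim hnN2 hw0 hw1 (hθ0 i) (hθ1 i) (hθa hi.le) hs0 (hθ0 I) hE hθE g5 g11)
  exact ⟨n, v, K, Hb, y, h⟩

end Pool.Agent.XA
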